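import Pool.Agent.Helper3_PPX.Stmts

/-! Squad PPX, module CHG: the minimal polynomial over a factorial ring. -/

set_option autoImplicit false

universe u

namespace Pool.Agent.PPX.H85

open Polynomial

theorem chg : ChgStmt.{u} := by
  intro A _ _ _ E _ _ hinj y δ F₀ hA hF hdep
  classical
  let _ : NormalizedGCDMonoid A := Classical.choice inferInstance
  let K := FractionRing A
  have h0 : ∀ {c : A}, algebraMap A E c = 0 → c = 0 := fun {c} hc =>
    hinj (by rw [hc, map_zero])
  -- a nonzero polynomial of degree at most δ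
  obtain ⟨P, hP0, hPy, hPd⟩ : ∃ P : A[X], P ≠ 0 ∧ aeval y P = 0 ∧ P.natDegree ≤ δ := by
    obtain ⟨g, hg, i₀, hi₀⟩ := Fintype.not_linearIndependent_iff.1 hdep
    choose p q hq hpq using fun i => hF (g i : E) (g i).2
    let c : Fin (δ + 1) → A := fun i => p i * ∏ j ∈ Finset.univ.erase i, q j
    have hc : ∀ i, algebraMap A E (c i) = (∏ j, algebraMap A E (q j)) * (g i : E) := by
      intro i
      rw [← Finset.mul_prod_erase _ _ (Finset.mem_univ i)]
      simp only [c, map_mul, map_prod]
      rw [hpq i]
      field_simp [hq i]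
    refine ⟨∑ i : Fin (δ + 1), C (c i) * X ^ (i : ℕ), ?_, ?_, ?_⟩
    · intro h
      have h1 := congrArg (fun f => coeff f (i₀ : ℕ)) h
      simp only [finsetSum_coeff, coeff_C_mul, coeff_X_pow, coeff_zero] at h1
      rw [Finset.sum_eq_single i₀] at h1
      · rw [if_pos rfl, mul_one] at h1
        have h2 := hc i₀
        rw [h1, map_zero] at h2
        have h3 : (∏ j, algebraMap A E (q j)) ≠ 0 := Finset.prod_ne_zero_iff.2 fun j _ => hq j
        rcases mul_eq_zero.1 h2.symm with h4 | h4
        · exact h3 h4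
        · exact hi₀ (Subtype.ext h4)
      · intro j _ hj
        rw [if_neg, mul_zero]
        intro h
        exact hj (Fin.ext h.symm)
      · intro h
        exact absurd (Finset.mem_univ _) h
    · rw [map_sum]
      have h1 : ∀ i : Fin (δ + 1), aeval y (C (c i) * X ^ (i : ℕ)) =
          (∏ j, algebraMap A E (q j)) * (g i • y ^ (i : ℕ)) := by
        intro i
        rw [map_mul, aeval_C, map_pow, aeval_X, hc i, mul_assoc]
        rfl
      simp_rw [h1]
      rw [← Finset.mul_sum, hg, mul_zero]
    · apply natDegree_sum_le_of_forall_le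
      intro i _
      exact (natDegree_C_mul_X_pow_le _ _).trans (Nat.lt_succ_iff.1 i.2)
  -- an irreducible factor
  obtain ⟨D, hDi, hDy, hDd⟩ : ∃ D : A[X], Irreducible D ∧ aeval y D = 0 ∧ D.natDegree ≤ δ := by
    have hI : (RingHom.ker (aeval y : A[X] →ₐ[A] E)).IsPrime := RingHom.ker_isPrime _
    have h1 : (UniqueFactorizationMonoid.factors P).prod ∈ RingHom.ker (aeval y : A[X] →ₐ[A] E) := by
      obtain ⟨u, hu⟩ := (UniqueFactorizationMonoid.factors_prod hP0).symm
      rw [← hu]
      exact Ideal.mul_mem_right _ _ hPy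
    obtain ⟨D, hD, hDI⟩ := (hI.multiset_prod_mem_iff_exists_mem _).1 h1
    exact ⟨D, UniqueFactorizationMonoid.irreducible_of_factor D hD, hDI,
      (natDegree_le_of_dvd (UniqueFactorizationMonoid.dvd_of_mem_factors hD) hP0).trans hPd⟩
  refine ⟨D, hDi, hDy, hDd, ?_⟩
  have hD0 : D.natDegree ≠ 0 := by
    intro h
    obtain ⟨c, hc⟩ := natDegree_eq_zero.1 h
    rw [← hc, aeval_C] at hDy
    have h1 := h0 hDy
    rw [h1, map_zero] at hc
    exact hDi.ne_zero hc.symm
  have hDp : D.IsPrimitive := hDi.isPrimitive hD0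
  have hDK : Irreducible (D.map (algebraMap A K)) :=
    (IsPrimitive.irreducible_iff_irreducible_map_fraction_map hDp).1 hDi
  let _ : Algebra K E := (IsLocalization.lift (M := nonZeroDivisors A) (S := K)
    (g := algebraMap A E) (fun x => isUnit_iff_ne_zero.2 fun h =>
      nonZeroDivisors.coe_ne_zero x (h0 h))).toAlgebra
  have _ : IsScalarTower A K E := IsScalarTower.of_algebraMap_eq fun x =>
    (IsLocalization.lift_eq _ x).symm
  intro F hFy
  by_cases hF0 : F = 0
  · rw [hF0]
    exact dvd_zero _
  have h1 : D.map (algebraMap A K) ∣ F.map (algebraMap A K) := by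
    by_contra hnd
    have hcop : IsCoprime (D.map (algebraMap A K)) (F.map (algebraMap A K)) :=
      (hDK.coprime_iff_not_dvd).2 hnd
    obtain ⟨a, b, hab⟩ := hcop
    have h2 := congrArg (aeval y) hab
    rw [map_add, map_mul, map_mul, aeval_map_algebraMap, aeval_map_algebraMap, hDy, hFy, mul_zero,
      mul_zero, add_zero, map_one] at h2
    exact zero_ne_one h2
  exact hDp.dvd_of_fraction_map_dvd_fraction_map h1

end Pool.Agent.PPX.H85
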