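import Pool.Agent.Helper3_PPX.Stmts

/-! Squad PPX, module CHO: the Chow form. -/

set_option autoImplicit false

universe u

namespace Pool.Agent.PPX.H85

open MvPolynomial

section

variable {k : Type u} [Field k]

/-- the variable `3` becomes the variable of the polynomial ring -/
noncomputable def Ph : P4 k ≃ₐ[k] Polynomial (MvPolynomial (Fin 3) k) :=
  (renameEquiv k (finRotate 4)).trans (finSuccEquiv k 3)

theorem Ph_apply (F : P4 k) : Ph F = finSuccEquiv k 3 (rename (finRotate 4) F) := rfl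

theorem Ph_X3 : Ph (k := k) (X 3) = Polynomial.X := by
  rw [Ph_apply, rename_X]
  have : finRotate 4 3 = 0 := by decide
  rw [this, finSuccEquiv_X_zero]

theorem Ph_X0 : Ph (k := k) (X 0) = Polynomial.C (X 0) := by
  rw [Ph_apply, rename_X]
  have : finRotate 4 0 = Fin.succ (0 : Fin 3) := by decide
  rw [this, finSuccEquiv_X_succ]

theorem Ph_X1 : Ph (k := k) (X 1) = Polynomial.C (X 1) := by
  rw [Ph_apply, rename_X]
  have : finRotate 4 1 = Fin.succ (1 : Fin 3) := by decide
  rw [this, finSuccEquiv_X_succ]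

theorem Ph_X2 : Ph (k := k) (X 2) = Polynomial.C (X 2) := by
  rw [Ph_apply, rename_X]
  have : finRotate 4 2 = Fin.succ (2 : Fin 3) := by decide
  rw [this, finSuccEquiv_X_succ]

theorem Ph_deg (F : P4 k) : (Ph F).natDegree = degreeOf 3 F := by
  rw [Ph_apply, natDegree_finSuccEquiv]
  have : (0 : Fin 4) = finRotate 4 3 := by decide
  rw [this, degreeOf_rename_of_injective (Equiv.injective _)]

theorem Ph_eval {E : Type*} [CommRing E] [Algebra k E] (g : MvPolynomial (Fin 3) k →ₐ[k] E)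
    (y : E) (F : P4 k) :
    (Ph F).eval₂ g.toRingHom y = aeval ![g (X 0), g (X 1), g (X 2), y] F := by
  have h2 : (Polynomial.eval₂RingHom g.toRingHom y).comp
      ((Ph (k := k)).toAlgHom).toRingHom =
      (aeval ![g (X 0), g (X 1), g (X 2), y] : P4 k →ₐ[k] E).toRingHom := by
    apply MvPolynomial.ringHom_ext
    · intro r
      have e1 : ((Ph (k := k)).toAlgHom).toRingHom (C r) = Polynomial.C (C r) :=
        (Ph (k := k)).commutes r
      rw [RingHom.comp_apply, e1, Polynomial.coe_eval₂RingHom, Polynomial.eval₂_C]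
      have e2 : g.toRingHom (C r) = algebraMap k _ r := g.commutes r
      rw [e2]
      exact ((aeval ![g (X 0), g (X 1), g (X 2), y] : P4 k →ₐ[k] E).commutes r).symm
    · intro i
      rw [RingHom.comp_apply, Polynomial.coe_eval₂RingHom]
      change Polynomial.eval₂ g.toRingHom y (Ph (X i)) =
        aeval ![g (X 0), g (X 1), g (X 2), y] (X i : P4 k)
      fin_cases i
      · change Polynomial.eval₂ g.toRingHom y (Ph (X 0)) = _
        rw [Ph_X0, Polynomial.eval₂_C, aeval_X]
        rfl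
      · change Polynomial.eval₂ g.toRingHom y (Ph (X 1)) = _
        rw [Ph_X1, Polynomial.eval₂_C, aeval_X]
        rfl
      · change Polynomial.eval₂ g.toRingHom y (Ph (X 2)) = _
        rw [Ph_X2, Polynomial.eval₂_C, aeval_X]
        rfl
      · change Polynomial.eval₂ g.toRingHom y (Ph (X 3)) = _
        rw [Ph_X3, Polynomial.eval₂_X, aeval_X]
        rfl
  exact DFunLike.congr_fun h2 F

/-- the last variable becomes the variable of the polynomial ring -/
noncomputable def Ps : MvPolynomial (Fin 3) k ≃ₐ[k] Polynomial (MvPolynomial (Fin 2) k) :=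
  (renameEquiv k (finRotate 3)).trans (finSuccEquiv k 2)

theorem Ps_apply (F : MvPolynomial (Fin 3) k) :
    Ps F = finSuccEquiv k 2 (rename (finRotate 3) F) := rfl

theorem Ps_X2 : Ps (k := k) (X 2) = Polynomial.X := by
  rw [Ps_apply, rename_X]
  have : finRotate 3 2 = 0 := by decide
  rw [this, finSuccEquiv_X_zero]

theorem Ps_X0 : Ps (k := k) (X 0) = Polynomial.C (X 0) := by
  rw [Ps_apply, rename_X]
  have : finRotate 3 0 = Fin.succ (0 : Fin 2) := by decide
  rw [this, finSuccEquiv_X_succ]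

theorem Ps_X1 : Ps (k := k) (X 1) = Polynomial.C (X 1) := by
  rw [Ps_apply, rename_X]
  have : finRotate 3 1 = Fin.succ (1 : Fin 2) := by decide
  rw [this, finSuccEquiv_X_succ]

theorem Ps_eval {E : Type*} [CommRing E] [Algebra k E] (g : MvPolynomial (Fin 2) k →ₐ[k] E)
    (y : E) (F : MvPolynomial (Fin 3) k) :
    (Ps F).eval₂ g.toRingHom y = aeval ![g (X 0), g (X 1), y] F := by
  have h2 : (Polynomial.eval₂RingHom g.toRingHom y).comp
      ((Ps (k := k)).toAlgHom).toRingHom =
      (aeval ![g (X 0), g (X 1), y] : MvPolynomial (Fin 3) k →ₐ[k] E).toRingHom := by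
    apply MvPolynomial.ringHom_ext
    · intro r
      have e1 : ((Ps (k := k)).toAlgHom).toRingHom (C r) = Polynomial.C (C r) :=
        (Ps (k := k)).commutes r
      rw [RingHom.comp_apply, e1, Polynomial.coe_eval₂RingHom, Polynomial.eval₂_C]
      have e2 : g.toRingHom (C r) = algebraMap k _ r := g.commutes r
      rw [e2]
      exact ((aeval ![g (X 0), g (X 1), y] : MvPolynomial (Fin 3) k →ₐ[k] E).commutes r).symm
    · intro i
      rw [RingHom.comp_apply, Polynomial.coe_eval₂RingHom]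
      change Polynomial.eval₂ g.toRingHom y (Ps (X i)) =
        aeval ![g (X 0), g (X 1), y] (X i : MvPolynomial (Fin 3) k)
      fin_cases i
      · change Polynomial.eval₂ g.toRingHom y (Ps (X 0)) = _
        rw [Ps_X0, Polynomial.eval₂_C, aeval_X]
        rfl
      · change Polynomial.eval₂ g.toRingHom y (Ps (X 1)) = _
        rw [Ps_X1, Polynomial.eval₂_C, aeval_X]
        rfl
      · change Polynomial.eval₂ g.toRingHom y (Ps (X 2)) = _
        rw [Ps_X2, Polynomial.eval₂_X, aeval_X]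
        rfl
  exact DFunLike.congr_fun h2 F

/-- `x`, `z` and `c` are algebraically independent -/
theorem xzc_inj {v : Ideal (P4 k)} (hpl : ∀ F : MvPolynomial (Fin 2) k, inc F ∈ v → F = 0)
    {E : Type u} [Field E] [Algebra k E] {e : Fin 4 → E} {c : E} (hg : IsGen v e c)
    {G : MvPolynomial (Fin 3) k} (hG : aeval ![e 0, e 1, c] G = 0) : G = 0 := by
  have h1 : (Ps G).eval₂ ((aeval e : P4 k →ₐ[k] E).comp inc).toRingHom c = 0 := by
    rw [Ps_eval]
    have e0 : ((aeval e : P4 k →ₐ[k] E).comp inc) (X 0) = e 0 := by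
      rw [AlgHom.comp_apply, inc, rename_X, aeval_X]
      rfl
    have e1 : ((aeval e : P4 k →ₐ[k] E).comp inc) (X 1) = e 1 := by
      rw [AlgHom.comp_apply, inc, rename_X, aeval_X]
      rfl
    rw [e0, e1]
    exact hG
  have h2 : ((Ps G).map (inc (k := k)).toRingHom).eval₂
      (aeval e : P4 k →ₐ[k] E).toRingHom c = 0 := by
    rw [Polynomial.eval₂_map]
    exact h1
  have h3 : Ps G = 0 := by
    ext1 l
    have h4 := hg.tr _ h2 l
    rw [Polynomial.coeff_map] at h4
    rw [Polynomial.coeff_zero]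
    exact hpl _ h4
  exact (EmbeddingLike.map_eq_zero_iff (f := Ps (k := k))).1 h3

theorem xz_indep {v : Ideal (P4 k)} (hpl : ∀ F : MvPolynomial (Fin 2) k, inc F ∈ v → F = 0)
    {E : Type u} [Field E] [Algebra k E] {e : Fin 4 → E} {c : E} (hg : IsGen v e c) :
    AlgebraicIndependent k ![e 0, e 1] := by
  rw [algebraicIndependent_iff]
  intro F hF
  apply hpl
  rw [← hg.ker, ← hF, inc, aeval_rename]
  congr 1
  apply MvPolynomial.algHom_ext
  intro i
  rw [aeval_X, aeval_X]
  fin_cases i <;> rfl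

end

theorem cho (hgen : GenStmt.{u}) (hspa : SpaStmt.{u}) (hchg : ChgStmt.{u}) : ChoStmt.{u} := by
  intro k _ _ v hv hpl M R Q hR hQ hRi hRQ hR2 hR3 hQ2 hQ3
  obtain ⟨E, _, _, f, c, hg⟩ := hgen v hv
  -- the span of the monomials
  have hspan : ∀ n₀ n₁ : ℕ, f 2 ^ n₀ * f 3 ^ n₁ ∈
      Submodule.span (IntermediateField.adjoin k (Set.range ![f 0, f 1]))
        {y | ∃ e₀ e₁ : ℕ, e₀ ≤ 2 * M ∧ e₁ ≤ 2 * M ∧ y = f 2 ^ e₀ * f 3 ^ e₁} := by
    intro n₀ n₁
    obtain ⟨τ, hτ⟩ : ∃ τ : Fin 4 ≃ Fin 2 ⊕ Fin 2, τ = (finSumFinEquiv (m := 2) (n := 2)).symm :=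
      ⟨_, rfl⟩
    have t0 : τ 0 = Sum.inl 0 := by rw [hτ]; decide
    have t1 : τ 1 = Sum.inl 1 := by rw [hτ]; decide
    have t2 : τ 2 = Sum.inr 0 := by rw [hτ]; decide
    have t3 : τ 3 = Sum.inr 1 := by rw [hτ]; decide
    have hval : ∀ F : P4 k, aeval (Sum.elim ![f 0, f 1] ![f 2, f 3]) (renameEquiv k τ F) =
        aeval f F := by
      intro F
      rw [renameEquiv_apply, aeval_rename]
      congr 1
      apply MvPolynomial.algHom_ext
      intro i
      rw [aeval_X, aeval_X, Function.comp_apply]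
      fin_cases i
      · change Sum.elim _ _ (τ 0) = _
        rw [t0]; rfl
      · change Sum.elim _ _ (τ 1) = _
        rw [t1]; rfl
      · change Sum.elim _ _ (τ 2) = _
        rw [t2]; rfl
      · change Sum.elim _ _ (τ 3) = _
        rw [t3]; rfl
    have hdeg : ∀ F : P4 k, degreeOf 2 F ≤ M → degreeOf 3 F ≤ M → ∀ c : Fin 2,
        degreeOf (Sum.inr c) (renameEquiv k τ F) ≤ ![M, M] c := by
      intro F h2 h3 c
      rw [renameEquiv_apply]
      fin_cases c
      · change degreeOf (Sum.inr 0) _ ≤ M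
        rw [← t2, degreeOf_rename_of_injective (Equiv.injective _)]
        exact h2
      · change degreeOf (Sum.inr 1) _ ≤ M
        rw [← t3, degreeOf_rename_of_injective (Equiv.injective _)]
        exact h3
    have h := hspa ![f 0, f 1] ![f 2, f 3] (xz_indep hpl hg) (renameEquiv k τ R)
      (renameEquiv k τ Q) ((MulEquiv.irreducible_iff (renameEquiv k τ)).2 hRi)
      (fun hd => hRQ ((map_dvd_iff (renameEquiv k τ)).1 hd))
      (by rw [hval]; exact (hg.ker R).2 hR) (by rw [hval]; exact (hg.ker Q).2 hQ) ![M, M]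
      (hdeg R hR2 hR3) (hdeg Q hQ2 hQ3) n₀ n₁
    exact h
  obtain ⟨y, hy⟩ : ∃ y, y = f 3 + c * f 2 := ⟨_, rfl⟩
  obtain ⟨g, hgg⟩ : ∃ g : MvPolynomial (Fin 3) k →ₐ[k] E, g = aeval ![f 0, f 1, c] := ⟨_, rfl⟩
  have hginj : Function.Injective g := by
    rw [injective_iff_map_eq_zero]
    intro G hG
    rw [hgg] at hG
    exact xzc_inj hpl hg hG
  obtain ⟨F₀, hF₀⟩ : ∃ F₀ : Subfield E, F₀ =
      (IntermediateField.adjoin k (Set.range ![f 0, f 1, c])).toSubfield := ⟨_, rfl⟩
  have hmem : ∀ w : E, w ∈ F₀ ↔ ∃ p q : MvPolynomial (Fin 3) k, w = g p / g q := by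
    intro w
    rw [hF₀, hgg]
    exact IntermediateField.mem_adjoin_range_iff k ![f 0, f 1, c] w
  have hgmem : ∀ p, g p ∈ F₀ := fun p => (hmem _).2 ⟨p, 1, by rw [map_one, div_one]⟩
  let _ : Algebra (MvPolynomial (Fin 3) k) E := g.toRingHom.toAlgebra
  have halg : ∀ p, algebraMap (MvPolynomial (Fin 3) k) E p = g p := fun p => rfl
  have hsub : ∀ w ∈ IntermediateField.adjoin k (Set.range ![f 0, f 1]), w ∈ F₀ := by
    intro w hw
    rw [hF₀]
    change w ∈ IntermediateField.adjoin k (Set.range ![f 0, f 1, c])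
    refine IntermediateField.adjoin.mono k _ _ ?_ hw
    rintro _ ⟨i, rfl⟩
    fin_cases i
    · exact ⟨0, rfl⟩
    · exact ⟨1, rfl⟩
  have hc : c ∈ F₀ := by
    have h := hgmem (X 2)
    rw [hgg, aeval_X] at h
    exact h
  let w : Fin (2 * M + 1) × Fin (2 * M + 1) → E := fun p => f 2 ^ (p.1 : ℕ) * f 3 ^ (p.2 : ℕ)
  have hspan2 : ∀ n₀ n₁ : ℕ, f 2 ^ n₀ * f 3 ^ n₁ ∈ Submodule.span F₀ (Set.range w) := by
    intro n₀ n₁
    have h := hspan n₀ n₁
    generalize f 2 ^ n₀ * f 3 ^ n₁ = q at h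
    induction h using Submodule.span_induction with
    | mem x hx =>
      obtain ⟨e₀, e₁, h0, h1, rfl⟩ := hx
      exact Submodule.subset_span ⟨(⟨e₀, by omega⟩, ⟨e₁, by omega⟩), rfl⟩
    | zero => exact Submodule.zero_mem _
    | add x y _ _ hx hy => exact Submodule.add_mem _ hx hy
    | smul a x _ hx =>
      have e : a • x = (⟨(a : E), hsub a a.2⟩ : F₀) • x := rfl
      rw [e]
      exact Submodule.smul_mem _ _ hx
  have hypow : ∀ n : ℕ, y ^ n ∈ Submodule.span F₀ (Set.range w) := by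
    intro n
    rw [hy, add_pow]
    apply Submodule.sum_mem
    intro m _
    have e : f 3 ^ m * (c * f 2) ^ (n - m) * (n.choose m : E) =
        (⟨c ^ (n - m) * (n.choose m : E), F₀.mul_mem (F₀.pow_mem hc _) (natCast_mem F₀ _)⟩ : F₀) •
          (f 2 ^ (n - m) * f 3 ^ m) := by
      change _ = (c ^ (n - m) * (n.choose m : E)) * (f 2 ^ (n - m) * f 3 ^ m)
      rw [mul_pow]
      ring
    rw [e]
    exact Submodule.smul_mem _ _ (hspan2 _ _)
  have hdep : ¬ LinearIndependent F₀ (fun i : Fin ((2 * M + 1) ^ 2 + 1) => y ^ (i : ℕ)) := by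
    intro hli
    classical
    have h := linearIndependent_le_span' _ hli (Set.range w) (by
      rintro _ ⟨i, rfl⟩
      exact hypow i)
    rw [Cardinal.mk_fin] at h
    have h1 : Fintype.card (Set.range w) ≤ (2 * M + 1) ^ 2 := by
      refine (Fintype.card_range_le w).trans ?_
      rw [Fintype.card_prod, Fintype.card_fin, sq]
    have h2 : (2 * M + 1) ^ 2 + 1 ≤ Fintype.card (Set.range w) := by exact_mod_cast h
    omega
  obtain ⟨D, hDi, hDy, hDd, hDF⟩ := hchg (A := MvPolynomial (Fin 3) k) (E := E) hginj y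
    ((2 * M + 1) ^ 2) F₀ (fun p => hgmem p) (by
      intro w hw
      obtain ⟨p, q, hpq⟩ := (hmem w).1 hw
      by_cases hq : g q = 0
      · refine ⟨0, 1, by rw [halg, map_one]; exact one_ne_zero, ?_⟩
        rw [hpq, hq, div_zero, halg, halg, map_zero, zero_div]
      · exact ⟨p, q, hq, hpq⟩) hdep
  have hval : ∀ F : P4 k, Polynomial.aeval y (Ph F) = 0 ↔ Van v F := by
    intro F
    rw [← hg.van]
    have h1 : Polynomial.aeval y (Ph F) = (Ph F).eval₂ g.toRingHom y := rfl
    rw [h1, Ph_eval, hgg, hy]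
    simp only [aeval_X]
    exact Iff.rfl
  refine ⟨(Ph (k := k)).symm D, ?_, ?_, ?_, ?_⟩
  · exact (MulEquiv.irreducible_iff (Ph (k := k)).symm).2 hDi
  · rw [← hval, AlgEquiv.apply_symm_apply]
    exact hDy
  · rw [← Ph_deg, AlgEquiv.apply_symm_apply]
    exact hDd
  · intro F hF
    rw [← map_dvd_iff (Ph (k := k)), AlgEquiv.apply_symm_apply]
    exact hDF _ ((hval F).2 hF)

end Pool.Agent.PPX.H85
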