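import Pool.Agent.Helper3_PPX.Stmts

/-! Squad PPX, module GEN: the generic field. -/

set_option autoImplicit false

universe u

namespace Pool.Agent.PPX.H85

open MvPolynomial

section

variable {k : Type u} [Field k]

/-- `F (x, z, T, Λ + T θ)` as a polynomial in `T` -/
noncomputable def sbp : P4 k →ₐ[k] Polynomial (P4 k) :=
  aeval ![Polynomial.C (X 0), Polynomial.C (X 1), Polynomial.X,
    Polynomial.C (X 3) + Polynomial.X * Polynomial.C (X 2)]

theorem sbp_eval (c : k) (F : P4 k) : (sbp F).eval (C c) = sb c F := by
  have h : ((Polynomial.aeval (C c : P4 k)).restrictScalars k).comp (sbp (k := k)) = sb c := by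
    apply MvPolynomial.algHom_ext
    intro i
    fin_cases i
    · simp [sbp, sb]
    · simp [sbp, sb]
    · simp [sbp, sb]
    · simp [sbp, sb]
      exact mul_comm _ _
  have h1 := DFunLike.congr_fun h F
  rw [AlgHom.comp_apply] at h1
  rw [← h1]
  change _ = Polynomial.aeval (C c : P4 k) (sbp F)
  rw [Polynomial.aeval_def, Polynomial.eval₂_eq_eval_map, Algebra.algebraMap_self,
    Polynomial.map_id]

end

theorem gen_aux {k : Type u} [Field k] [Infinite k] {B : Type u} [CommRing B] [IsDomain B]
    [Algebra k B] (π : P4 k →ₐ[k] B) (v : Ideal (P4 k)) (hπ : ∀ Q, π Q = 0 ↔ Q ∈ v) :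
    ∃ (E : Type u) (_ : Field E) (_ : Algebra k E) (e : Fin 4 → E) (c : E), IsGen v e c := by
  obtain ⟨φ, hφ⟩ : ∃ φ : P4 k →ₐ[k] FractionRing (Polynomial B), φ =
      (IsScalarTower.toAlgHom k (Polynomial B) (FractionRing (Polynomial B))).comp
        ((Polynomial.CAlgHom).comp π) := ⟨_, rfl⟩
  obtain ⟨ι, hι⟩ : ∃ ι : Polynomial B →+* FractionRing (Polynomial B), ι =
      algebraMap (Polynomial B) (FractionRing (Polynomial B)) := ⟨_, rfl⟩
  have hφa : ∀ Q : P4 k, φ Q = ι (Polynomial.C (π Q)) := by
    intro Q
    rw [hφ, hι]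
    rfl
  have hinj : Function.Injective ι := by
    rw [hι]
    exact IsFractionRing.injective _ _
  have hker : ∀ Q : P4 k, φ Q = 0 ↔ Q ∈ v := by
    intro Q
    rw [hφa, ← hπ]
    constructor
    · intro h
      have h1 := hinj (h.trans (map_zero ι).symm)
      exact Polynomial.C_eq_zero.1 h1
    · intro h
      rw [h, map_zero, map_zero]
  have hae : (aeval (fun i => φ (X i)) : P4 k →ₐ[k] FractionRing (Polynomial B)) = φ := by
    apply MvPolynomial.algHom_ext
    intro i
    rw [aeval_X]
  have hev : ∀ F : Polynomial (P4 k), F.eval₂ φ.toRingHom (ι Polynomial.X) =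
      ι (F.map π.toRingHom) := by
    intro F
    have e0 : F.map π.toRingHom = F.eval₂ (Polynomial.C.comp π.toRingHom) Polynomial.X := rfl
    rw [e0, Polynomial.hom_eval₂]
    have e : φ.toRingHom = ι.comp (Polynomial.C.comp π.toRingHom) := by
      apply RingHom.ext
      intro Q
      exact hφa Q
    rw [e]
  have hev0 : ∀ F : Polynomial (P4 k), F.eval₂ φ.toRingHom (ι Polynomial.X) = 0 ↔
      F.map π.toRingHom = 0 := by
    intro F
    rw [hev]
    constructor
    · intro h
      exact hinj (h.trans (map_zero ι).symm)
    · intro h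
      rw [h, map_zero]
  refine ⟨FractionRing (Polynomial B), inferInstance, inferInstance, fun i => φ (X i),
    ι Polynomial.X, ?_, ?_, ?_⟩
  · intro Q
    rw [hae]
    exact hker Q
  · intro F hF l
    rw [hae] at hF
    have h1 := congrArg (fun p => Polynomial.coeff p l) ((hev0 F).1 hF)
    simp only [Polynomial.coeff_map, Polynomial.coeff_zero] at h1
    exact (hπ _).1 h1
  · intro F
    have h1 : aeval ![φ (X 0), φ (X 1), ι Polynomial.X, φ (X 3) + ι Polynomial.X * φ (X 2)] F =
        (sbp F).eval₂ φ.toRingHom (ι Polynomial.X) := by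
      have h2 : (aeval ![φ (X 0), φ (X 1), ι Polynomial.X, φ (X 3) + ι Polynomial.X * φ (X 2)] :
          P4 k →ₐ[k] FractionRing (Polynomial B)).toRingHom =
          (Polynomial.eval₂RingHom φ.toRingHom (ι Polynomial.X)).comp (sbp (k := k)).toRingHom := by
        apply MvPolynomial.ringHom_ext
        · intro r
          have e1 : (sbp (k := k)).toRingHom (C r) = Polynomial.C (C r) :=
            (sbp (k := k)).commutes r
          rw [RingHom.comp_apply, e1, Polynomial.coe_eval₂RingHom, Polynomial.eval₂_C]
          have e2 : φ.toRingHom (C r) = algebraMap k _ r := φ.commutes r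
          rw [e2]
          exact (aeval ![φ (X 0), φ (X 1), ι Polynomial.X,
            φ (X 3) + ι Polynomial.X * φ (X 2)]).commutes r
        · intro i
          fin_cases i
          · simp [sbp]
          · simp [sbp]
          · simp [sbp]
          · simp [sbp]
            exact mul_comm _ _
      exact DFunLike.congr_fun h2 F
    change aeval ![φ (X 0), φ (X 1), ι Polynomial.X, φ (X 3) + ι Polynomial.X * φ (X 2)] F = 0 ↔ _
    rw [h1, hev0]
    have h2 : ∀ c : k, ((sbp F).map π.toRingHom).eval (π (C c)) = π (sb c F) := by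
      intro c
      have e : ((sbp F).map π.toRingHom).eval (π.toRingHom (C c)) = π.toRingHom ((sbp F).eval (C c)) := by
        rw [Polynomial.eval_map, Polynomial.eval₂_at_apply]
      rw [sbp_eval] at e
      exact e
    constructor
    · intro h c
      rw [← hπ, ← h2 c, h, Polynomial.eval_zero]
    · intro h
      apply Polynomial.eq_zero_of_infinite_isRoot
      apply Set.infinite_of_injective_forall_mem (f := fun c : k => π (C c))
      · have e : (fun c : k => π (C c)) = algebraMap k B := by
          ext c
          exact π.commutes c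
        rw [e]
        exact (algebraMap k B).injective
      · intro c
        change Polynomial.eval _ _ = 0
        rw [h2 c]
        exact (hπ _).2 (h c)

theorem gen : GenStmt.{u} := by
  intro k _ _ v hv
  have hB : IsDomain (P4 k ⧸ v) := Ideal.Quotient.isDomain v
  exact gen_aux (Ideal.Quotient.mkₐ k v) v fun Q => Ideal.Quotient.eq_zero_iff_mem

end Pool.Agent.PPX.H85
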